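import Pool.Agent.Lib.MP_a55e6f_al.H50.LF

/-!
Module LLAD of MP_a55e6f_al: Lie polynomials in leading forms; adjoint action and left multiplication.
-/

set_option autoImplicit false

attribute [local instance 100] LieRing.ofAssociativeRing

namespace Pool.Agent.A55.H50

open scoped Classical

section general
variable {k M : Type} [Field k]

theorem comp_single (z : M → ℕ) (n : ℕ) (u : M) (r : k) :
    comp z n (MonoidAlgebra.single u r) = if z u = n then MonoidAlgebra.single u r else 0 := by
  have hsupp : ∀ w, (MonoidAlgebra.single u r : MonoidAlgebra k M).coeff w ≠ 0 → w = u := by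
    intro w hw
    rw [MonoidAlgebra.coeff_single] at hw
    by_contra hne
    rw [Finsupp.single_eq_of_ne hne] at hw
    exact hw rfl
  split_ifs with h
  · apply comp_of_hom
    intro w hw
    rw [hsupp w hw, h]
  · apply comp_eq_zero
    intro w hw
    rw [hsupp w hw]
    exact h

theorem Le.add {z : M → ℕ} {n : ℕ} {a b : MonoidAlgebra k M} (ha : Le z n a) (hb : Le z n b) :
    Le z n (a + b) := by
  intro w hw
  rw [MonoidAlgebra.coeff_add, Finsupp.add_apply] at hw
  by_cases h1 : a.coeff w = 0
  · rw [h1, zero_add] at hw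
    exact hb w hw
  · exact ha w h1

theorem Le.smul {z : M → ℕ} {n : ℕ} {a : MonoidAlgebra k M} (r : k) (ha : Le z n a) :
    Le z n (r • a) := by
  intro w hw
  refine ha w ?_
  intro h
  apply hw
  rw [MonoidAlgebra.coeff_smul, Finsupp.smul_apply, h, smul_zero]

theorem Le.zero (z : M → ℕ) (n : ℕ) : Le z n (0 : MonoidAlgebra k M) := by
  intro w hw
  simp at hw

theorem Le.sub {z : M → ℕ} {n : ℕ} {a b : MonoidAlgebra k M} (ha : Le z n a) (hb : Le z n b) :
    Le z n (a - b) := by
  have : a - b = a + (-1 : k) • b := by rw [neg_one_smul, sub_eq_add_neg]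
  rw [this]
  exact ha.add (hb.smul _)

theorem Le.sum {z : M → ℕ} {n : ℕ} {ι : Type} (s : Finset ι) (f : ι → MonoidAlgebra k M)
    (h : ∀ i ∈ s, Le z n (f i)) : Le z n (∑ i ∈ s, f i) :=
  Finset.sum_induction f (Le z n) (fun _ _ => Le.add) (Le.zero z n) h

theorem comp_comp_self (z : M → ℕ) (n : ℕ) (b : MonoidAlgebra k M) :
    comp z n (comp z n b) = comp z n b := comp_of_hom (hom_comp z n b)

theorem comp_comp_ne (z : M → ℕ) {n m : ℕ} (h : n ≠ m) (b : MonoidAlgebra k M) :
    comp z n (comp z m b) = 0 := by
  apply comp_eq_zero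
  intro w hw
  rw [hom_comp z m b w hw]
  exact Ne.symm h


variable [Monoid M]

theorem comp_mul_antidiagonal {z : M → ℕ} (hz : IsAdd z) (n : ℕ) (a b : MonoidAlgebra k M) :
    comp z n (a * b) = ∑ p ∈ Finset.HasAntidiagonal.antidiagonal n, comp z p.1 a * comp z p.2 b := by
  induction a using MonoidAlgebra.induction_linear with
  | zero => simp
  | add f g hf hg =>
    rw [add_mul, map_add, hf, hg, ← Finset.sum_add_distrib]
    refine Finset.sum_congr rfl ?_
    intro p _
    rw [map_add, add_mul]
  | single u r =>
    induction b using MonoidAlgebra.induction_linear with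
    | zero => simp
    | add f g hf hg =>
      rw [mul_add, map_add, hf, hg, ← Finset.sum_add_distrib]
      refine Finset.sum_congr rfl ?_
      intro p _
      rw [map_add, mul_add]
    | single v s =>
      rw [MonoidAlgebra.single_mul_single, comp_single, hz.map_mul]
      split_ifs with h
      · rw [Finset.sum_eq_single (z u, z v)]
        · rw [comp_single, comp_single, if_pos rfl, if_pos rfl, MonoidAlgebra.single_mul_single]
        · rintro ⟨p, q⟩ _ hne
          rw [comp_single, comp_single]
          dsimp only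
          by_cases h1 : z u = p
          · by_cases h2 : z v = q
            · exact absurd (by rw [h1, h2]) hne
            · rw [if_neg h2, mul_zero]
          · rw [if_neg h1, zero_mul]
        · intro hne
          exact absurd (Finset.HasAntidiagonal.mem_antidiagonal.2 h) hne
      · symm
        apply Finset.sum_eq_zero
        rintro ⟨p, q⟩ hpq
        rw [Finset.HasAntidiagonal.mem_antidiagonal] at hpq
        rw [comp_single, comp_single]
        dsimp only at hpq ⊢
        by_cases h1 : z u = p
        · by_cases h2 : z v = q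
          · exact absurd (by rw [h1, h2]; exact hpq) h
          · rw [if_neg h2, mul_zero]
        · rw [if_neg h1, zero_mul]

end general

/-- LL -/
theorem ll : LLStatement := by
  intro k Y C I _ _ _ ψ a v hv N b hb hmem
  have hv' : ∀ i, Le zd (v i) (ψ (a i)) := hv
  let S : LieSubalgebra k (BA k Y) :=
    { carrier := {b | ∀ n, ∃ c ∈ LieSubalgebra.lieSpan k C (Set.range a),
        comp zd n (ψ c) = comp zd n b ∧ Le zd n (ψ c)}
      add_mem' := by
        intro b b' hb hb' n
        obtain ⟨c, hc, h1, h2⟩ := hb n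
        obtain ⟨c', hc', h1', h2'⟩ := hb' n
        refine ⟨c + c', add_mem hc hc', ?_, ?_⟩
        · rw [map_add, map_add, map_add, h1, h1']
        · rw [map_add]; exact h2.add h2'
      zero_mem' := by
        intro n
        refine ⟨0, zero_mem _, ?_, ?_⟩
        · rw [map_zero]
        · rw [map_zero]; exact Le.zero _ _
      smul_mem' := by
        intro r b hb n
        obtain ⟨c, hc, h1, h2⟩ := hb n
        refine ⟨r • c, (LieSubalgebra.lieSpan k C (Set.range a)).smul_mem r hc, ?_, ?_⟩
        · rw [map_smul, map_smul, map_smul, h1]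
        · rw [map_smul]; exact h2.smul r
      lie_mem' := by
        intro b b' hb hb' n
        choose c hc h1 h2 using hb
        choose c' hc' h1' h2' using hb'
        refine ⟨∑ p ∈ Finset.HasAntidiagonal.antidiagonal n, ⁅c p.1, c' p.2⁆, ?_, ?_, ?_⟩
        · refine Submodule.sum_mem (LieSubalgebra.lieSpan k C (Set.range a)).toSubmodule ?_
          intro p _
          exact (LieSubalgebra.lieSpan k C (Set.range a)).lie_mem (hc p.1) (hc' p.2)
        · rw [map_sum, map_sum, LieRing.of_associative_ring_bracket, map_sub,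
            comp_mul_antidiagonal zd_add, comp_mul_antidiagonal zd_add]
          have h3 : ∑ p ∈ Finset.HasAntidiagonal.antidiagonal n, comp zd p.1 b' * comp zd p.2 b =
              ∑ p ∈ Finset.HasAntidiagonal.antidiagonal n, comp zd p.2 b' * comp zd p.1 b := by
            rw [← Finset.Nat.sum_antidiagonal_swap]
            rfl
          rw [h3, ← Finset.sum_sub_distrib]
          refine Finset.sum_congr rfl ?_
          rintro ⟨p, q⟩ hpq
          rw [Finset.HasAntidiagonal.mem_antidiagonal] at hpq
          dsimp only at hpq ⊢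
          rw [LieHom.map_lie, LieRing.of_associative_ring_bracket, map_sub]
          have e1 : comp zd n (ψ (c p) * ψ (c' q)) = comp zd p (ψ (c p)) * comp zd q (ψ (c' q)) := by
            rw [← hpq]; exact comp_mul zd_add (h2 p) (h2' q)
          have e2 : comp zd n (ψ (c' q) * ψ (c p)) = comp zd q (ψ (c' q)) * comp zd p (ψ (c p)) := by
            rw [← hpq, add_comm]; exact comp_mul zd_add (h2' q) (h2 p)
          rw [e1, e2, h1, h1']
        · rw [map_sum]
          apply Le.sum
          rintro ⟨p, q⟩ hpq
          rw [Finset.HasAntidiagonal.mem_antidiagonal] at hpq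
          dsimp only at hpq ⊢
          rw [LieHom.map_lie, LieRing.of_associative_ring_bracket]
          apply Le.sub
          · rw [← hpq]; exact (h2 p).mul zd_add (h2' q)
          · rw [← hpq, add_comm]; exact (h2' q).mul zd_add (h2 p) }
  have hS : LieSubalgebra.lieSpan k (BA k Y) (Set.range fun i => comp zd (v i) (ψ (a i))) ≤ S := by
    rw [LieSubalgebra.lieSpan_le]
    rintro _ ⟨i, rfl⟩ n
    by_cases hn : n = v i
    · subst hn
      exact ⟨a i, LieSubalgebra.subset_lieSpan ⟨i, rfl⟩, (comp_comp_self _ _ _).symm, hv' i⟩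
    · refine ⟨0, zero_mem _, ?_, ?_⟩
      · rw [map_zero, map_zero]
        exact (comp_comp_ne zd hn _).symm
      · rw [map_zero]; exact Le.zero _ _
  obtain ⟨c, hc, h1, h2⟩ := hS hmem N
  refine ⟨c, hc, ?_, h2⟩
  rw [h1]
  exact comp_of_hom hb

/-- AD -/
theorem ad : ADStatement := by
  intro k Y C J _ _ _ ψ t ht h c
  have ht' : ∀ j, Le zd 0 (ψ (t j)) := by
    intro j w hw
    rw [ht j w hw]
  set V : ℕ → Submodule k (BA k Y) := fun N => Submodule.span k
    {b | ∃ (j : J) (e : BA k Y), Hom zd N e ∧ b = e * ψ (t j)} with hV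
  set P : FA k J → Prop := fun h => ∃ c' ∈ LieSubalgebra.lieSpan k C (Set.range t ∪ {c}),
    ∀ N, (∀ w, (ψ c).coeff w ≠ 0 → zd w ≤ N) → (∀ w, (ψ c').coeff w ≠ 0 → zd w ≤ N) ∧
      comp zd N (ψ c') - ev (fun j => ψ (t j)) h * comp zd N (ψ c) ∈ V N with hP
  have hadd : ∀ h h', P h → P h' → P (h + h') := by
    rintro h h' ⟨c1, hc1, h1⟩ ⟨c2, hc2, h2⟩
    refine ⟨c1 + c2, add_mem hc1 hc2, ?_⟩
    intro N hN
    obtain ⟨a1, a2⟩ := h1 N hN
    obtain ⟨b1, b2⟩ := h2 N hN
    refine ⟨?_, ?_⟩
    · rw [map_add]
      exact Le.add a1 b1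
    · rw [map_add, map_add, map_add, add_mul]
      have e : comp zd N (ψ c1) + comp zd N (ψ c2) -
          (ev (fun j => ψ (t j)) h * comp zd N (ψ c) + ev (fun j => ψ (t j)) h' * comp zd N (ψ c)) =
          (comp zd N (ψ c1) - ev (fun j => ψ (t j)) h * comp zd N (ψ c)) +
          (comp zd N (ψ c2) - ev (fun j => ψ (t j)) h' * comp zd N (ψ c)) := by abel
      rw [e]
      exact add_mem a2 b2
  have hsmul : ∀ (r : k) h, P h → P (r • h) := by
    rintro r h ⟨c1, hc1, h1⟩
    refine ⟨r • c1, (LieSubalgebra.lieSpan k C (Set.range t ∪ {c})).smul_mem r hc1, ?_⟩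
    intro N hN
    obtain ⟨a1, a2⟩ := h1 N hN
    refine ⟨?_, ?_⟩
    · rw [map_smul]
      exact Le.smul r a1
    · rw [map_smul, map_smul, map_smul, smul_mul_assoc, ← smul_sub]
      exact Submodule.smul_mem _ r a2
  have hmulV : ∀ (j : J) (N : ℕ) (x : BA k Y), x ∈ V N → ψ (t j) * x ∈ V N := by
    intro j N x hx
    induction hx using Submodule.span_induction with
    | mem x hx =>
      obtain ⟨j', e, he, rfl⟩ := hx
      refine Submodule.subset_span ⟨j', ψ (t j) * e, ?_, by rw [mul_assoc]⟩
      intro w hw
      obtain ⟨u, v, hu, hv, rfl⟩ := coeff_mul_ne hw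
      rw [zd_add.map_mul, ht j u hu, he v hv, zero_add]
    | zero => rw [mul_zero]; exact zero_mem _
    | add x y _ _ hx hy => rw [mul_add]; exact add_mem hx hy
    | smul r x _ hx => rw [mul_smul_comm]; exact Submodule.smul_mem _ r hx
  have hword : ∀ w : FreeMonoid J, P (MonoidAlgebra.of k _ w) := by
    intro w
    induction w using FreeMonoid.inductionOn' with
    | one =>
      refine ⟨c, LieSubalgebra.subset_lieSpan (Or.inr rfl), ?_⟩
      intro N hN
      refine ⟨hN, ?_⟩
      rw [map_one, map_one, one_mul, sub_self]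
      exact zero_mem _
    | of_mul j w ih =>
      obtain ⟨c1, hc1, h1⟩ := ih
      refine ⟨⁅t j, c1⁆, LieSubalgebra.lie_mem _ (LieSubalgebra.subset_lieSpan (Or.inl ⟨j, rfl⟩)) hc1,
        ?_⟩
      intro N hN
      obtain ⟨a1, a2⟩ := h1 N hN
      have a1' : Le zd N (ψ c1) := a1
      have e0 : ψ ⁅t j, c1⁆ = ψ (t j) * ψ c1 - ψ c1 * ψ (t j) := by
        rw [LieHom.map_lie, LieRing.of_associative_ring_bracket]
      have l1 : Le zd N (ψ (t j) * ψ c1) := by
        have := (ht' j).mul zd_add a1'
        rwa [zero_add] at this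
      have l2 : Le zd N (ψ c1 * ψ (t j)) := by
        have := a1'.mul zd_add (ht' j)
        rwa [add_zero] at this
      refine ⟨?_, ?_⟩
      · rw [e0]
        exact l1.sub l2
      · have c1' : comp zd N (ψ (t j) * ψ c1) = ψ (t j) * comp zd N (ψ c1) := by
          have := comp_mul zd_add (ht' j) a1'
          rw [zero_add, comp_of_hom (ht j)] at this
          exact this
        have c2' : comp zd N (ψ c1 * ψ (t j)) = comp zd N (ψ c1) * ψ (t j) := by
          have := comp_mul zd_add a1' (ht' j)
          rw [add_zero, comp_of_hom (ht j)] at this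
          exact this
        have ew : ev (k := k) (fun j => ψ (t j)) (MonoidAlgebra.of k _ (FreeMonoid.of j * w)) =
            ψ (t j) * ev (k := k) (fun j => ψ (t j)) (MonoidAlgebra.of k _ w) := by
          rw [map_mul, map_mul]
          congr 1
          exact ev_letter (fun j => ψ (t j)) j
        rw [e0, map_sub, c1', c2', ew]
        have e : ψ (t j) * comp zd N (ψ c1) - comp zd N (ψ c1) * ψ (t j) -
            ψ (t j) * ev (k := k) (fun j => ψ (t j)) (MonoidAlgebra.of k _ w) * comp zd N (ψ c) =
            ψ (t j) * (comp zd N (ψ c1) -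
              ev (k := k) (fun j => ψ (t j)) (MonoidAlgebra.of k _ w) * comp zd N (ψ c)) -
            comp zd N (ψ c1) * ψ (t j) := by
          rw [mul_sub, mul_assoc]; abel
        rw [e]
        refine sub_mem (hmulV j N _ a2) ?_
        exact Submodule.subset_span ⟨j, comp zd N (ψ c1), hom_comp _ _ _, rfl⟩
  have hall : ∀ h : FA k J, P h := by
    intro h
    induction h using MonoidAlgebra.induction_linear with
    | zero =>
      have := hsmul 0 _ (hword 1)
      rwa [zero_smul] at this
    | add f g hf hg => exact hadd _ _ hf hg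
    | single w r =>
      have hsing : (MonoidAlgebra.single w r : FA k J) = r • MonoidAlgebra.of k _ w := by
        rw [MonoidAlgebra.of_apply, MonoidAlgebra.smul_single, smul_eq_mul, mul_one]
      rw [hsing]
      exact hsmul r _ (hword w)
  exact hall h

end Pool.Agent.A55.H50
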